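import Pool.Agent.helper90.FL.Spec

set_option autoImplicit false

namespace Pool.Agent.helper90.FL

open Finset Polynomial
open scoped Classical

/-- adding a number without passing `0` -/
theorem BND_add (n c : ℕ) [NeZero n] (i a : ZMod n) (h : i + (c : ZMod n) = a) (ha : c ≤ a.val) : a.val = i.val + c := by
  have hn : 0 < n := Nat.pos_of_ne_zero (NeZero.ne n)
  have hi : i.val < n := ZMod.val_lt i
  have haa : a.val < n := ZMod.val_lt a
  have hlt : c < n := lt_of_le_of_lt ha haa
  have h1 : a.val = (i.val + c) % n := by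
    rw [← h, ZMod.val_add, ZMod.val_natCast, Nat.mod_eq_of_lt hlt]
  by_cases h2 : i.val + c < n
  · rw [h1, Nat.mod_eq_of_lt h2]
  · exfalso
    have h3 : (i.val + c) % n = i.val + c - n := by
      rw [Nat.mod_eq_sub_mod (by omega), Nat.mod_eq_of_lt (by omega)]
    omega

theorem BND_false (n k : ℕ) [NeZero n] (e : Fin 3 × ZMod n) (a : ZMod n)
    (h : src n e = (false, a) ∨ tgt n k e = (false, a)) (ha : 1 ≤ a.val) :
    3 * a.val ≤ ord n e + 2 ∧ ord n e ≤ 3 * a.val + 1 := by
  obtain ⟨c, i⟩ := e
  fin_cases c
  · simp [src, tgt, ord] at h ⊢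
    rcases h with h | h
    · rw [h]; omega
    · have haa : a.val < n := ZMod.val_lt a
      have h1 := BND_add n 1 i a (by rw [Nat.cast_one]; exact h) ha
      omega
  · simp [src, tgt, ord] at h ⊢
    rw [h]; omega
  · simp [src, tgt] at h

theorem BND_true (n k : ℕ) [NeZero n] (hk : 1 ≤ k) (e : Fin 3 × ZMod n) (a : ZMod n)
    (h : src n e = (true, a) ∨ tgt n k e = (true, a)) (ha : k ≤ a.val) :
    3 * a.val + 2 ≤ ord n e + 3 * k ∧ ord n e ≤ 3 * a.val + 2 := by
  obtain ⟨c, i⟩ := e
  fin_cases c
  · simp [src, tgt] at h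
  · simp [src, tgt, ord] at h ⊢
    rw [h]; omega
  · simp [src, tgt, ord] at h ⊢
    rcases h with h | h
    · rw [h]; omega
    · have haa : a.val < n := ZMod.val_lt a
      have h1 := BND_add n k i a h ha
      omega

theorem BND : BND_stmt := by
  intro n k _ hk hkn j
  set φ : Bool × ZMod n → Bool × ℕ := fun v => (v.1, v.2.val) with hφ
  have hinj : Function.Injective φ := by
    rintro ⟨b, a⟩ ⟨b', a'⟩ h
    simp only [hφ, Prod.mk.injEq] at h
    rw [h.1, ZMod.val_injective n h.2]
  set T : Finset (Bool × ℕ) := ({(false, 0), (false, (j + 1) / 3)} : Finset (Bool × ℕ)) ∪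
    (range k).image (fun i => (true, i)) ∪ (Ico (j / 3) (j / 3 + k)).image (fun i => (true, i))
    with hT
  have hsub : φ '' (bd (src n) (tgt n k) (ord n) j) ⊆ (T : Set (Bool × ℕ)) := by
    rintro _ ⟨⟨b, a⟩, ⟨⟨e1, he1, hv1⟩, ⟨e2, he2, hv2⟩⟩, rfl⟩
    rw [Finset.mem_coe, hT, Finset.mem_union, Finset.mem_union]
    cases b with
    | false =>
      left
      left
      by_cases ha : 1 ≤ a.val
      · have h1 := BND_false n k e1 a hv1 ha
        have h2 := BND_false n k e2 a hv2 ha
        have h3 : a.val = (j + 1) / 3 := by omega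
        rw [Finset.mem_insert, Finset.mem_singleton]
        right
        simp only [hφ, h3]
      · have h3 : a.val = 0 := by omega
        rw [Finset.mem_insert, Finset.mem_singleton]
        left
        simp only [hφ, h3]
    | true =>
      by_cases ha : k ≤ a.val
      · right
        have h1 := BND_true n k hk e1 a hv1 ha
        have h2 := BND_true n k hk e2 a hv2 ha
        rw [Finset.mem_image]
        refine ⟨a.val, ?_, rfl⟩
        rw [Finset.mem_Ico]
        constructor <;> omega
      · left
        right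
        rw [Finset.mem_image]
        refine ⟨a.val, ?_, rfl⟩
        rw [Finset.mem_range]
        omega
  have hTc : T.card ≤ 2 * k + 2 := by
    have h1 : ({(false, 0), (false, (j + 1) / 3)} : Finset (Bool × ℕ)).card ≤ 2 :=
      Finset.card_le_two
    have h2 : ((range k).image (fun i => ((true, i) : Bool × ℕ))).card ≤ k := by
      refine le_trans Finset.card_image_le ?_
      rw [Finset.card_range]
    have h3 : ((Ico (j / 3) (j / 3 + k)).image (fun i => ((true, i) : Bool × ℕ))).card ≤ k := by
      refine le_trans Finset.card_image_le ?_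
      rw [Nat.card_Ico]
      omega
    have h4 := Finset.card_union_le (({(false, 0), (false, (j + 1) / 3)} : Finset (Bool × ℕ)) ∪
      (range k).image (fun i => (true, i))) ((Ico (j / 3) (j / 3 + k)).image (fun i => (true, i)))
    have h5 := Finset.card_union_le ({(false, 0), (false, (j + 1) / 3)} : Finset (Bool × ℕ))
      ((range k).image (fun i => (true, i)))
    rw [hT]
    omega
  calc (bd (src n) (tgt n k) (ord n) j).ncard
      = (φ '' (bd (src n) (tgt n k) (ord n) j)).ncard :=
        (Set.ncard_image_of_injective _ hinj).symm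
    _ ≤ (T : Set (Bool × ℕ)).ncard := Set.ncard_le_ncard hsub T.finite_toSet
    _ = T.card := Set.ncard_coe_finset T
    _ ≤ 2 * k + 2 := hTc

end Pool.Agent.helper90.FL
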